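import Pool.Agent.Helper9.PP.Stm
import Pool.Agent.Helper9.FJ.Main

/-!
Project PP (helper9), package VA: preparations.
-/

set_option autoImplicit false
set_option linter.unusedSectionVars false

namespace Pool.Agent.Helper63.PP

open FF Module MvPolynomial Pool.Agent.Helper9.FJ Pool.Agent.Helper9.PP

section CG

variable {K : Type} [Field K] [Algebra ℂ K] {σ : Type} [Fintype σ] [DecidableEq σ] {P : Place ℂ K}

/-- all coefficients have order at least `c` -/
def CG (P : Place ℂ K) (c : ℤ) (s : MvPolynomial σ K) : Prop := ∀ α, Ge P c (coeff α s)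

theorem CG.mono {c c' : ℤ} {s : MvPolynomial σ K} (h : CG P c s) (hc : c' ≤ c) :
    CG P c' s := fun α => (h α).mono hc

theorem CG.sum {ι : Type*} {c : ℤ} (S : Finset ι) {s : ι → MvPolynomial σ K}
    (h : ∀ i ∈ S, CG P c (s i)) : CG P c (∑ i ∈ S, s i) := fun α => by
  rw [coeff_sum]
  exact Ge.sum _ fun i hi => h i hi α

theorem CG.mul {c c' : ℤ} {s s' : MvPolynomial σ K} (h : CG P c s) (h' : CG P c' s') :
    CG P (c + c') (s * s') := fun α => by
  classical
  rw [coeff_mul]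
  exact Ge.sum _ fun x _ => (h _).mul (h' _)

theorem cg_C {c : ℤ} {a : K} (h : Ge P c a) : CG P c (C a : MvPolynomial σ K) := by
  classical
  intro α
  rw [coeff_C]
  split_ifs
  · exact h
  · exact ge_zero

theorem cg_X (j : σ) : CG P 0 (X j : MvPolynomial σ K) := by
  classical
  intro α
  rw [coeff_X]
  split_ifs
  · exact ge_one
  · exact ge_zero

theorem cg_one : CG P 0 (1 : MvPolynomial σ K) := by
  rw [← C_1]
  exact cg_C ge_one

theorem CG.prod0 {ι : Type*} (S : Finset ι) {s : ι → MvPolynomial σ K}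
    (h : ∀ i ∈ S, CG P 0 (s i)) : CG P 0 (∏ i ∈ S, s i) := by
  classical
  induction S using Finset.induction_on with
  | empty => rw [Finset.prod_empty]; exact cg_one
  | insert a S ha ih =>
    rw [Finset.prod_insert ha]
    have := (h a (Finset.mem_insert_self _ _)).mul (ih fun i hi => h i (Finset.mem_insert_of_mem hi))
    rwa [add_zero] at this

theorem CG.pow0 {s : MvPolynomial σ K} (h : CG P 0 s) (n : ℕ) : CG P 0 (s ^ n) := by
  have := CG.prod0 (Finset.range n) (s := fun _ => s) fun _ _ => h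
  rwa [Finset.prod_const, Finset.card_range] at this

/-- the value at a regular point -/
theorem CG.eval {c : ℤ} {s : MvPolynomial σ K} (h : CG P c s) {z : σ → K}
    (hz : ∀ j, Ge P 0 (z j)) : Ge P c (eval z s) := by
  rw [eval_eq']
  refine Ge.sum _ fun α _ => ?_
  have := (h α).mul (Ge.prod0 Finset.univ (F := fun i => z i ^ α i) fun i _ => by
    have := (hz i).pow (α i)
    rwa [mul_zero] at this)
  rwa [add_zero] at this

/-- congruent points -/
theorem CG.eval_sub {c : ℤ} {s : MvPolynomial σ K} (h : CG P c s) {z z' : σ → K}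
    (hz : ∀ j, Ge P 0 (z j)) (hz' : ∀ j, Ge P 0 (z' j)) (hzz : ∀ j, Ge P 1 (z j - z' j)) :
    Ge P (c + 1) (MvPolynomial.eval z s - MvPolynomial.eval z' s) := by
  rw [eval_eq', eval_eq', ← Finset.sum_sub_distrib]
  refine Ge.sum _ fun α _ => ?_
  rw [← mul_sub]
  refine (h α).mul ?_
  have h1 : ∀ x : K, ∀ n : ℕ, Ge P 0 x → Ge P 0 (x ^ n) := fun x n hx => by
    have := hx.pow n
    rwa [mul_zero] at this
  exact ge_prod_sub _ (fun i => h1 _ _ (hz i)) (fun i => h1 _ _ (hz' i))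
    fun i => ge_pow_sub (hz i) (hz' i) (hzz i) _

theorem CG.pderiv {c : ℤ} {s : MvPolynomial σ K} (h : CG P c s) (j : σ) :
    CG P c (MvPolynomial.pderiv j s) := by
  intro α
  rw [coeff_pderiv]
  have := (h (α + Finsupp.single j 1)).mul (ge_int (P := P) ((α j : ℤ) + 1))
  rw [add_zero] at this
  push_cast at this
  exact this

/-- the derivative of a polynomial at a point -/
noncomputable def dvM (η y : σ → K) : MvPolynomial σ K →ₗ[K] K :=
  ∑ x, η x • ((aeval y : MvPolynomial σ K →ₐ[K] K).toLinearMap ∘ₗ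
    ((MvPolynomial.pderiv x : Derivation K (MvPolynomial σ K) (MvPolynomial σ K)) :
      MvPolynomial σ K →ₗ[K] MvPolynomial σ K))

theorem dvM_apply (η y : σ → K) (s : MvPolynomial σ K) :
    dvM η y s = ∑ x, η x * eval y (MvPolynomial.pderiv x s) := by
  rw [dvM, LinearMap.sum_apply]
  refine Finset.sum_congr rfl fun x _ => ?_
  rfl

theorem dvM_mul (η y : σ → K) (s s' : MvPolynomial σ K) :
    dvM η y (s * s') = dvM η y s * eval y s' + eval y s * dvM η y s' := by
  rw [dvM_apply, dvM_apply, dvM_apply, Finset.sum_mul, Finset.mul_sum, ← Finset.sum_add_distrib]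
  refine Finset.sum_congr rfl fun j _ => ?_
  rw [pderiv_mul, map_add, map_mul, map_mul]
  ring

theorem dvM_C (η y : σ → K) (a : K) : dvM η y (C a) = 0 := by
  rw [dvM_apply]
  refine Finset.sum_eq_zero fun j _ => ?_
  rw [pderiv_C, map_zero, mul_zero]

theorem dvM_X (η y : σ → K) (x : σ) : dvM η y (X x) = η x := by
  rw [dvM_apply, Finset.sum_eq_single x]
  · rw [pderiv_X_self, map_one, mul_one]
  · intro j _ hj
    rw [pderiv_X_of_ne hj.symm, map_zero, mul_zero]
  · intro h
    exact absurd (Finset.mem_univ _) h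

theorem dvM_C_mul (η y : σ → K) (a : K) (s : MvPolynomial σ K) :
    dvM η y (C a * s) = a * dvM η y s := by
  rw [dvM_mul, dvM_C, zero_mul, zero_add, eval_C]

theorem dvM_ge {c : ℤ} {s : MvPolynomial σ K} (h : CG P c s) {η y : σ → K}
    (hη : ∀ x, Ge P 0 (η x)) (hy : ∀ x, Ge P 0 (y x)) : Ge P c (dvM η y s) := by
  rw [dvM_apply]
  refine Ge.sum _ fun x _ => ?_
  have h3 := (hη x).mul ((h.pderiv x).eval hy)
  rwa [zero_add] at h3

end CG

section loc

variable {K : Type} [Field K] [Algebra ℂ K] {l : ℕ} {r : Fin l → ℕ} {P : Place ℂ K}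
  (E : ∀ j, Bundle K (r j))

/-- from the frame at `P` to the generic frame -/
noncomputable def iv (P : Place ℂ K) (z : Vr r → K) : Vr r → K :=
  fun x => (((E x.1).B P)⁻¹).mulVec (fun i => z ⟨x.1, i⟩) x.2

/-- constant vectors -/
noncomputable def kc (ξ : ∀ j, Fin (r j) → ℂ) : Vr r → K := fun x => algebraMap ℂ K (ξ x.1 x.2)

theorem ge_kc (ξ : ∀ j, Fin (r j) → ℂ) (x : Vr r) : Ge P 0 (kc (K := K) ξ x) := ge_const _

theorem ptM_eq (ξ : ∀ j, Fin (r j) → ℂ) : ptM E P ξ = iv E P (kc ξ) := rfl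

theorem iv_add (z w : Vr r → K) : iv E P (z + w) = iv E P z + iv E P w := by
  funext x
  show (((E x.1).B P)⁻¹).mulVec ((fun i => z ⟨x.1, i⟩) + fun i => w ⟨x.1, i⟩) x.2 = _
  rw [Matrix.mulVec_add]
  rfl

theorem iv_smul (t : K) (z : Vr r → K) : iv E P (t • z) = t • iv E P z := by
  funext x
  show (((E x.1).B P)⁻¹).mulVec (t • fun i => z ⟨x.1, i⟩) x.2 = _
  rw [Matrix.mulVec_smul]
  rfl

theorem locM_mul (s s' : MvPolynomial (Vr r) K) :
    locM E P (s * s') = locM E P s * locM E P s' := map_mul _ _ _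

theorem locM_C (a : K) : locM E P (C a) = C a := aeval_C _ _

theorem locM_X (x : Vr r) :
    locM E P (X x) = ∑ i, C (((E x.1).B P)⁻¹ x.2 i) * X ⟨x.1, i⟩ := aeval_X _ _

theorem locM_X' (j : Fin l) (i : Fin (r j)) :
    locM E P (X ⟨j, i⟩) = ∑ k, C (((E j).B P)⁻¹ i k) * X ⟨j, k⟩ := aeval_X _ _

theorem eval_locM_X (z : Vr r → K) (x : Vr r) : eval z (locM E P (X x)) = iv E P z x := by
  rw [locM_X, map_sum]
  show _ = ∑ i, ((E x.1).B P)⁻¹ x.2 i * z ⟨x.1, i⟩
  exact Finset.sum_congr rfl fun i _ => by rw [map_mul, eval_C, eval_X]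

theorem eval_locM (z : Vr r → K) (s : MvPolynomial (Vr r) K) :
    eval z (locM E P s) = eval (iv E P z) s := by
  induction s using MvPolynomial.induction_on with
  | C a => rw [locM_C, eval_C, eval_C]
  | add p q hp hq =>
    rw [map_add, ← hp, ← hq, ← map_add]
    congr 1
    exact map_add _ _ _
  | mul_X p x hp => rw [locM_mul, map_mul, map_mul, hp, eval_locM_X, eval_X]

/-- the chain rule -/
theorem dvM_locM (η z : Vr r → K) (s : MvPolynomial (Vr r) K) :
    dvM η z (locM E P s) = dvM (iv E P η) (iv E P z) s := by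
  induction s using MvPolynomial.induction_on with
  | C a => rw [locM_C, dvM_C, dvM_C]
  | add p q hp hq =>
    rw [map_add, ← hp, ← hq, ← map_add]
    congr 1
    exact map_add _ _ _
  | mul_X p x hp =>
    rw [locM_mul, dvM_mul, dvM_mul, hp, eval_locM_X, eval_X, eval_locM, dvM_X]
    congr 2
    rw [locM_X, map_sum]
    show _ = ∑ i, ((E x.1).B P)⁻¹ x.2 i * η ⟨x.1, i⟩
    exact Finset.sum_congr rfl fun i _ => by rw [dvM_C_mul, dvM_X]

theorem eval_ptM (ξ : ∀ j, Fin (r j) → ℂ) (s : MvPolynomial (Vr r) K) :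
    eval (ptM E P ξ) s = eval (kc ξ) (locM E P s) := by
  rw [eval_locM, ptM_eq]

theorem dvM_ptM (ξ η : ∀ j, Fin (r j) → ℂ) (s : MvPolynomial (Vr r) K) :
    dvM (ptM E P η) (ptM E P ξ) s = dvM (kc η) (kc ξ) (locM E P s) := by
  rw [dvM_locM, ptM_eq, ptM_eq]

/-! ### linear forms with constant coefficients -/

/-- the linear form with constant coefficients in the frame at `P` -/
noncomputable def cfM (P : Place ℂ K) (j : Fin l) (lam : Fin (r j) → ℂ) : MvPolynomial (Vr r) K :=
  ∑ i, C (Matrix.vecMul (fun i => algebraMap ℂ K (lam i)) ((E j).B P) i) * X ⟨j, i⟩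

theorem locM_cfM (j : Fin l) (lam : Fin (r j) → ℂ) :
    locM E P (cfM E P j lam) = ∑ i, C (algebraMap ℂ K (lam i)) * X ⟨j, i⟩ := by
  have h1 : locM E P (cfM E P j lam) =
      ∑ k, C (Matrix.vecMul (Matrix.vecMul (fun i => algebraMap ℂ K (lam i)) ((E j).B P))
        ((E j).B P)⁻¹ k) * X ⟨j, k⟩ := by
    have h2 : locM E P (cfM E P j lam) = ∑ i, C (Matrix.vecMul (fun i => algebraMap ℂ K (lam i))
        ((E j).B P) i) * locM E P (X ⟨j, i⟩) := by
      rw [cfM]
      have h3 : ∀ s, locM E P s = (aeval (fun x : Vr r => ∑ i, C (((E x.1).B P)⁻¹ x.2 i) *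
        X ⟨x.1, i⟩) : MvPolynomial (Vr r) K →ₐ[K] MvPolynomial (Vr r) K) s := fun _ => rfl
      rw [h3, map_sum]
      refine Finset.sum_congr rfl fun i _ => ?_
      rw [map_mul, ← h3, ← h3, locM_C]
    rw [h2]
    have h4 : ∀ i, C (Matrix.vecMul (fun i => algebraMap ℂ K (lam i)) ((E j).B P) i) *
        locM E P (X ⟨j, i⟩) = ∑ k, C (Matrix.vecMul (fun i => algebraMap ℂ K (lam i))
        ((E j).B P) i) * (C (((E j).B P)⁻¹ i k) * X ⟨j, k⟩) := by
      intro i
      rw [locM_X', Finset.mul_sum]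
    rw [Finset.sum_congr rfl fun i _ => h4 i, Finset.sum_comm]
    refine Finset.sum_congr rfl fun k _ => ?_
    have h5 : Matrix.vecMul (Matrix.vecMul (fun i => algebraMap ℂ K (lam i)) ((E j).B P))
        ((E j).B P)⁻¹ k = ∑ i, Matrix.vecMul (fun i => algebraMap ℂ K (lam i)) ((E j).B P) i *
          ((E j).B P)⁻¹ i k := rfl
    rw [h5, map_sum, Finset.sum_mul]
    exact Finset.sum_congr rfl fun i _ => by rw [C_mul]; ring
  rw [h1, Matrix.vecMul_vecMul, Matrix.mul_nonsing_inv _ (isUnit_iff_ne_zero.2 ((E j).det_ne P)),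
    Matrix.vecMul_one]

theorem cg_cfM (j : Fin l) (lam : Fin (r j) → ℂ) : CG P 0 (locM E P (cfM E P j lam)) := by
  rw [locM_cfM]
  refine CG.sum _ fun i _ => ?_
  have := (cg_C (σ := Vr r) (ge_const (P := P) (lam i))).mul (cg_X (P := P) (⟨j, i⟩ : Vr r))
  rwa [add_zero] at this

theorem eval_cfM (z : Vr r → K) (j : Fin l) (lam : Fin (r j) → ℂ) :
    eval z (locM E P (cfM E P j lam)) = ∑ i, algebraMap ℂ K (lam i) * z ⟨j, i⟩ := by
  rw [locM_cfM, map_sum]
  exact Finset.sum_congr rfl fun i _ => by rw [map_mul, eval_C, eval_X]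

theorem dvM_cfM (η z : Vr r → K) (j : Fin l) (lam : Fin (r j) → ℂ) :
    dvM η z (locM E P (cfM E P j lam)) = ∑ i, algebraMap ℂ K (lam i) * η ⟨j, i⟩ := by
  rw [locM_cfM, map_sum]
  exact Finset.sum_congr rfl fun i _ => by rw [dvM_C_mul, dvM_X]

theorem sum_kc (j : Fin l) (lam : Fin (r j) → ℂ) (ξ : ∀ j, Fin (r j) → ℂ) :
    ∑ i, algebraMap ℂ K (lam i) * kc ξ (⟨j, i⟩ : Vr r) = algebraMap ℂ K (∑ i, lam i * ξ j i) := by
  rw [map_sum]
  exact Finset.sum_congr rfl fun i _ => (map_mul _ _ _).symm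

/-! ### multihomogeneous polynomials -/

/-- the weight for the degree in the group `j` -/
def wj (j : Fin l) : Vr r → ℕ := fun x => if x.1 = j then 1 else 0

theorem weight_wj (j : Fin l) (α : Vr r →₀ ℕ) :
    Finsupp.weight (wj (r := r) j) α = ∑ i, α ⟨j, i⟩ := by
  rw [Finsupp.weight_apply, Finsupp.sum_fintype _ _ (fun _ => by simp),
    Fintype.sum_sigma, Finset.sum_eq_single j]
  · refine Finset.sum_congr rfl fun i _ => ?_
    simp [wj]
  · intro k _ hk
    refine Finset.sum_eq_zero fun i _ => ?_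
    simp [wj, hk]
  · intro h
    exact absurd (Finset.mem_univ _) h

theorem isMh_iff {a : Fin l → ℕ} {s : MvPolynomial (Vr r) K} :
    IsMh a s ↔ ∀ j, IsWeightedHomogeneous (wj j) s (a j) := by
  constructor
  · intro h j α hα
    rw [weight_wj]
    exact h α hα j
  · intro h α hα j
    rw [← weight_wj]
    exact h j hα

theorem IsMh.mul {a b : Fin l → ℕ} {s s' : MvPolynomial (Vr r) K} (h : IsMh a s)
    (h' : IsMh b s') : IsMh (a + b) (s * s') := by
  rw [isMh_iff] at *
  exact fun j => (h j).mul (h' j)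

theorem isMh_C (c : K) : IsMh (0 : Fin l → ℕ) (C c : MvPolynomial (Vr r) K) := by
  rw [isMh_iff]
  exact fun j => isWeightedHomogeneous_C _ _

theorem IsMh.prodPow {s : Fin l → MvPolynomial (Vr r) K}
    (h : ∀ j, IsMh (Pi.single j 1) (s j)) (a : Fin l → ℕ) : IsMh a (∏ j, s j ^ a j) := by
  rw [isMh_iff]
  intro k
  have h1 : IsWeightedHomogeneous (wj k) (∏ j, s j ^ a j)
      (∑ j, a j • (Pi.single j 1 : Fin l → ℕ) k) := by
    refine IsWeightedHomogeneous.prod _ _ _ fun j _ => ?_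
    exact ((isMh_iff.1 (h j)) k).pow (a j)
  have h2 : ∑ j, a j • (Pi.single j 1 : Fin l → ℕ) k = a k := by
    rw [Finset.sum_eq_single k]
    · simp
    · intro j _ hj
      simp [Ne.symm hj]
    · intro h
      exact absurd (Finset.mem_univ _) h
  rwa [h2] at h1

theorem isMh_cfM (j : Fin l) (lam : Fin (r j) → ℂ) : IsMh (Pi.single j 1) (cfM E P j lam) := by
  rw [isMh_iff]
  intro k
  rw [cfM]
  refine IsWeightedHomogeneous.sum _ _ _ fun i _ => ?_
  have h1 := (isWeightedHomogeneous_C (R := K) (wj (r := r) k) (Matrix.vecMul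
    (fun i => algebraMap ℂ K (lam i)) ((E j).B P) i)).mul
      (isWeightedHomogeneous_X K (wj (r := r) k) ⟨j, i⟩)
  rw [zero_add] at h1
  have h2 : wj (r := r) k ⟨j, i⟩ = (Pi.single j 1 : Fin l → ℕ) k := by
    simp [wj, Pi.single_apply, eq_comm]
  rwa [h2] at h1

end loc

end Pool.Agent.Helper63.PP
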