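import Pool.Agent.Helper63.PP.VaBase

/-!
Project PP (helper9), package VA: the conditions for very ampleness.
-/

set_option autoImplicit false
set_option linter.unusedSectionVars false

namespace Pool.Agent.Helper63.PP

open FF Module MvPolynomial Pool.Agent.Helper9.FJ Pool.Agent.Helper9.PP

section

variable {K : Type} [Field K] [Algebra ℂ K] {l : ℕ} {r : Fin l → ℕ} {P : Place ℂ K}

/-- the evaluation as a linear map -/
noncomputable def evL (z : Vr r → K) : MvPolynomial (Vr r) K →ₗ[K] K :=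
  (aeval z : MvPolynomial (Vr r) K →ₐ[K] K).toLinearMap

theorem evL_apply (z : Vr r → K) (s : MvPolynomial (Vr r) K) : evL z s = eval z s := rfl

/-- the subgroups given by conditions -/
def GG (A : Place ℂ K → Set ((MvPolynomial (Vr r) K →ₗ[K] K) × ℤ)) (P : Place ℂ K) :
    AddSubgroup (MvPolynomial (Vr r) K) where
  carrier := {s | ∀ p ∈ A P, Ge P p.2 (p.1 s)}
  zero_mem' := fun p _ => by rw [map_zero]; exact ge_zero
  add_mem' := fun h h' p hp => by rw [map_add]; exact (h p hp).add (h' p hp)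
  neg_mem' := fun h p hp => by rw [map_neg]; exact (h p hp).neg

theorem not_ge {t : K} (ht0 : t ≠ 0) (ht : P.ord t = 1) {n c : ℤ} {u : K} (hu : Ge P 1 (u - 1))
    (hc : n < c) : ¬ Ge P c (t ^ n * u) := by
  intro h
  have h1 : Ge P (P.ord (t ^ n) + 1) (t ^ n * u) := by
    rw [P.ord_zpow, ht]
    exact h.mono (by omega)
  have h2 := h1.of_mul (zpow_ne_zero _ ht0)
  have h3 := h2.sub hu
  rw [sub_sub_cancel, ge_iff one_ne_zero, P.ord_one] at h3
  omega

variable (E : ∀ j, Bundle K (r j))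

theorem ge_eval {c : ℤ} {s : MvPolynomial (Vr r) K} (h : CG P c (locM E P s))
    (ξ : ∀ j, Fin (r j) → ℂ) : Ge P c (eval (ptM E P ξ) s) := by
  rw [eval_ptM]
  exact h.eval (ge_kc ξ)

theorem ge_dv {c : ℤ} {s : MvPolynomial (Vr r) K} (h : CG P c (locM E P s))
    (ξ η : ∀ j, Fin (r j) → ℂ) : Ge P c (dvM (ptM E P η) (ptM E P ξ) s) := by
  rw [dvM_ptM]
  exact dvM_ge h (ge_kc η) (ge_kc ξ)

/-- the first special section -/
noncomputable def sA (P : Place ℂ K) (c : K) (lam : ∀ j, Fin (r j) → ℂ) (a : Fin l → ℕ) :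
    MvPolynomial (Vr r) K := C c * ∏ j, cfM E P j (lam j) ^ a j

theorem sA_mh (c : K) (lam : ∀ j, Fin (r j) → ℂ) (a : Fin l → ℕ) : IsMh a (sA E P c lam a) := by
  have := IsMh.mul (isMh_C (r := r) c) (IsMh.prodPow (fun j => isMh_cfM E (P := P) j (lam j)) a)
  rwa [zero_add] at this

theorem locM_prodPow (s : Fin l → MvPolynomial (Vr r) K) (a : Fin l → ℕ) :
    locM E P (∏ j, s j ^ a j) = ∏ j, locM E P (s j) ^ a j := by
  have h3 : ∀ s, locM E P s = (aeval (fun x : Vr r => ∑ i, C (((E x.1).B P)⁻¹ x.2 i) *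
    X ⟨x.1, i⟩) : MvPolynomial (Vr r) K →ₐ[K] MvPolynomial (Vr r) K) s := fun _ => rfl
  rw [h3, map_prod]
  exact Finset.prod_congr rfl fun j _ => by rw [map_pow, ← h3]

theorem cg_prodPow (lam : ∀ j, Fin (r j) → ℂ) (a : Fin l → ℕ) :
    CG P 0 (locM E P (∏ j, cfM E P j (lam j) ^ a j)) := by
  rw [locM_prodPow]
  exact CG.prod0 _ fun j _ => (cg_cfM E j (lam j)).pow0 _

theorem sA_cg {n : ℤ} {c : K} (hc : Ge P n c) (lam : ∀ j, Fin (r j) → ℂ) (a : Fin l → ℕ) :
    CG P n (locM E P (sA E P c lam a)) := by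
  rw [sA, locM_mul, locM_C]
  have := (cg_C (σ := Vr r) hc).mul (cg_prodPow (P := P) E lam a)
  rwa [add_zero] at this

theorem eval_prodPow_one (ξ lam : ∀ j, Fin (r j) → ℂ) (h : ∀ j, ∑ i, lam j i * ξ j i = 1)
    (a : Fin l → ℕ) : eval (kc ξ) (locM E P (∏ j, cfM E P j (lam j) ^ a j)) = 1 := by
  rw [locM_prodPow, map_prod]
  refine Finset.prod_eq_one fun j _ => ?_
  rw [map_pow, eval_cfM, sum_kc, h j, map_one, one_pow]

theorem sA_eval (c : K) (ξ lam : ∀ j, Fin (r j) → ℂ) (h : ∀ j, ∑ i, lam j i * ξ j i = 1)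
    (a : Fin l → ℕ) : eval (ptM E P ξ) (sA E P c lam a) = c := by
  rw [eval_ptM, sA, locM_mul, locM_C, map_mul, eval_C, eval_prodPow_one E ξ lam h, mul_one]

/-- the second special section -/
noncomputable def sB (P : Place ℂ K) (c : K) (j : Fin l) (lam0 : Fin (r j) → ℂ)
    (lam : ∀ j, Fin (r j) → ℂ) (a' : Fin l → ℕ) :
    MvPolynomial (Vr r) K := C c * (cfM E P j lam0 * ∏ j, cfM E P j (lam j) ^ a' j)

theorem sB_mh (c : K) (j : Fin l) (lam0 : Fin (r j) → ℂ) (lam : ∀ j, Fin (r j) → ℂ)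
    {a a' : Fin l → ℕ} (h : Pi.single j 1 + a' = a) : IsMh a (sB E P c j lam0 lam a') := by
  have := IsMh.mul (isMh_C (r := r) c) (IsMh.mul (isMh_cfM E (P := P) j lam0)
    (IsMh.prodPow (fun j => isMh_cfM E (P := P) j (lam j)) a'))
  rwa [zero_add, h] at this

theorem sB_cg {n : ℤ} {c : K} (hc : Ge P n c) (j : Fin l) (lam0 : Fin (r j) → ℂ)
    (lam : ∀ j, Fin (r j) → ℂ) (a' : Fin l → ℕ) : CG P n (locM E P (sB E P c j lam0 lam a')) := by
  rw [sB, locM_mul, locM_C, locM_mul]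
  have := (cg_C (σ := Vr r) hc).mul ((cg_cfM (P := P) E j lam0).mul (cg_prodPow (P := P) E lam a'))
  rwa [add_zero, add_zero] at this

theorem sB_eval (c : K) (j : Fin l) (lam0 : Fin (r j) → ℂ) (lam : ∀ j, Fin (r j) → ℂ)
    (a' : Fin l → ℕ) (ξ : ∀ j, Fin (r j) → ℂ) : eval (ptM E P ξ) (sB E P c j lam0 lam a') =
      c * (algebraMap ℂ K (∑ i, lam0 i * ξ j i) *
        eval (kc ξ) (locM E P (∏ j, cfM E P j (lam j) ^ a' j))) := by
  rw [eval_ptM, sB, locM_mul, locM_C, locM_mul, map_mul, map_mul, eval_C, eval_cfM, sum_kc]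

theorem sB_dv (c : K) (j : Fin l) (lam0 : Fin (r j) → ℂ) (lam : ∀ j, Fin (r j) → ℂ)
    (a' : Fin l → ℕ) (ξ η : ∀ j, Fin (r j) → ℂ) (h0 : ∑ i, lam0 i * ξ j i = 0)
    (h1 : ∑ i, lam0 i * η j i = 1) (h : ∀ j, ∑ i, lam j i * ξ j i = 1) :
    dvM (ptM E P η) (ptM E P ξ) (sB E P c j lam0 lam a') = c := by
  rw [dvM_ptM, sB, locM_mul, locM_C, locM_mul, dvM_C_mul, dvM_mul, eval_prodPow_one E ξ lam h,
    dvM_cfM, eval_cfM, sum_kc, sum_kc, h0, h1, map_one, map_zero, zero_mul, add_zero, one_mul,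
    mul_one]

end

theorem core' (hC : S_CORE) {K : Type} [Field K] [Algebra ℂ K] [IsFF ℂ K] {l : ℕ}
    {r : Fin l → ℕ} {W : Place ℂ K →₀ ℤ} (hW : IsCanonical W) (E : ∀ j, Bundle K (r j))
    (μ : Fin l → ℝ) (hr : ∀ j, 0 < r j) (hμ : ∀ j, SL (toBn (E j)) (μ j)) (a1 a2 a3 : Fin l → ℕ)
    (b1 b2 b3 : Place ℂ K →₀ ℤ) (h1 : 0 < ∑ j, a1 j * μ j + ddeg b1)
    (h2 : 0 < ∑ j, a2 j * μ j + ddeg b2) (h3 : (ddeg W : ℝ) < ∑ j, a3 j * μ j + ddeg b3)
    (P1 P2 : Place ℂ K) (ξ1 ξ2 : ∀ j, Fin (r j) → ℂ) (hξ1 : ∀ j, ξ1 j ≠ 0)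
    (hξ2 : ∀ j, ξ2 j ≠ 0) (A : Place ℂ K → Set ((MvPolynomial (Vr r) K →ₗ[K] K) × ℤ))
    (e : Place ℂ K →₀ ℤ) (he : ∀ P, 0 ≤ e P) (hA : ∀ P, ∀ p ∈ A P,
      (∀ c s, CG P c (locM E P s) → Ge P c (p.1 s)) ∧ p.2 ≤ e P - (b1 + b2 + b3) P ∧
      ∀ x1 x2 x3, CG P 0 (locM E P x1) → CG P 0 (locM E P x2) → CG P 0 (locM E P x3) →
        (P = P1 → Ge P 1 (eval (ptM E P ξ1) x1)) → (P = P2 → Ge P 1 (eval (ptM E P ξ2) x2)) →
        Ge P (p.2 + (b1 + b2 + b3) P) (p.1 (x1 * x2 * x3)))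
    (P0 : Place ℂ K) (s0 : MvPolynomial (Vr r) K) (hs0 : IsMh (a1 + a2 + a3) s0)
    (hs0' : CG P0 (-(b1 + b2 + b3) P0) (locM E P0 s0)) :
    ∃ s, IsSecM E (a1 + a2 + a3) (b1 + b2 + b3) s ∧
      (∀ P, P ≠ P0 → ∀ p ∈ A P, Ge P p.2 (p.1 s)) ∧ ∀ p ∈ A P0, Ge P0 p.2 (p.1 (s - s0)) := by
  refine hC hW E μ hr hμ a1 a2 a3 b1 b2 b3 h1 h2 h3 P1 P2 ξ1 ξ2 hξ1 hξ2 (GG A) ?_ e he ?_ ?_ P0 s0
    hs0 hs0'
  · intro P c s hc hs p hp
    rw [← smul_eq_C_mul, map_smul, smul_eq_mul]
    have hc' : Ge P 0 c := hc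
    have := hc'.mul (hs p hp)
    rwa [zero_add] at this
  · intro P s hs p hp
    exact ((hA P p hp).1 _ s hs).mono (hA P p hp).2.1
  · intro P u x1 x2 x3 _ _ _ c1 c2 c3 e1 e2 hu p hp
    rw [← smul_eq_C_mul, map_smul, smul_eq_mul]
    have := hu.mul ((hA P p hp).2.2 x1 x2 x3 c1 c2 c3 e1 e2)
    exact this.mono (by omega)

/-- **Package VA.** -/
theorem va (hC : S_CORE) : S_VA := by
  classical
  intro K _ _ _ l r W hW E μ hr hμ a1 a2 a3 b1 b2 b3 ha1 ha2 h1 h2 h3
  have core := core' hC hW E μ hr hμ a1 a2 a3 b1 b2 b3 h1 h2 h3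
  obtain ⟨N, hN⟩ : ∃ N, b1 + b2 + b3 = N := ⟨_, rfl⟩
  obtain ⟨a, ha⟩ : ∃ a, a1 + a2 + a3 = a := ⟨_, rfl⟩
  have hapos : ∀ j, 0 < a j := by
    intro j
    rw [← ha, Pi.add_apply, Pi.add_apply]
    have := ha1 j
    omega
  rw [hN, ha] at core ⊢
  clear hN ha h1 h2 h3 ha1 ha2 hμ hW
  have hsplit : ∀ j, ∃ a' : Fin l → ℕ, Pi.single j 1 + a' = a := by
    intro j
    refine ⟨fun k => a k - (Pi.single j 1 : Fin l → ℕ) k, ?_⟩
    funext k
    rw [Pi.add_apply]
    by_cases hk : k = j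
    · subst hk
      have := hapos k
      rw [Pi.single_eq_same]
      omega
    · rw [Pi.single_eq_of_ne hk]
      omega
  refine ⟨fun P ξ hξ => ?_, fun P Q ξ η hξ hη hPQ => ?_, fun P t ξ η ht hξ => ?_,
    fun P ξ η hξ hη => ?_⟩
  · -- base points
    choose lam hlam using fun j => exists_one (hξ j)
    obtain ⟨t, ht0, ht⟩ := P.surj
    obtain ⟨s, hs, -, hs0⟩ := core P P ξ ξ hξ hξ
      (fun P' => {p | P' = P ∧ p = (evL (ptM E P ξ), 1 - N P)}) (Finsupp.single P 1)
      (fun P' => by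
        rw [Finsupp.single_apply]
        split_ifs <;> norm_num)
      (by
        rintro P' p ⟨rfl, rfl⟩
        refine ⟨fun c s h => ge_eval E h ξ, ?_, fun x1 x2 x3 c1 c2 c3 e1 _ => ?_⟩
        · rw [Finsupp.single_eq_same]
        · rw [evL_apply, map_mul, map_mul]
          have := ((e1 rfl).mul (ge_eval E c2 ξ)).mul (ge_eval E c3 ξ)
          exact this.mono (by omega))
      P (sA E P (t ^ (-N P)) lam a) (sA_mh E _ lam a) (sA_cg E (ge_zpow ht _) lam a)
    refine ⟨s, hs, fun hcon => ?_⟩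
    have h4 := hs0 _ ⟨rfl, rfl⟩
    rw [evL_apply, map_sub, sA_eval E _ ξ lam hlam] at h4
    have h5 := hcon.sub h4
    rw [sub_sub_cancel] at h5
    exact not_ge_zpow ht0 ht (by omega) h5
  · -- two points
    have key := core P Q ξ η hξ hη
      (fun P' => {p | (P' = P ∧ p = (evL (ptM E P ξ), 1 - N P)) ∨
        (P' = Q ∧ p = (evL (ptM E Q η), 1 - N Q))}) (Finsupp.single P 1 + Finsupp.single Q 1)
      (fun P' => by
        rw [Finsupp.add_apply, Finsupp.single_apply, Finsupp.single_apply]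
        split_ifs <;> norm_num)
      (by
        rintro P' p (⟨rfl, rfl⟩ | ⟨rfl, rfl⟩)
        · refine ⟨fun c s h => ge_eval E h ξ, ?_, fun x1 x2 x3 c1 c2 c3 e1 _ => ?_⟩
          · rw [Finsupp.add_apply, Finsupp.single_eq_same, Finsupp.single_apply]
            split_ifs
            · show 1 - N P' ≤ 1 + 1 - N P'
              omega
            · show 1 - N P' ≤ 1 + 0 - N P'
              omega
          · rw [evL_apply, map_mul, map_mul]
            have := ((e1 rfl).mul (ge_eval E c2 ξ)).mul (ge_eval E c3 ξ)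
            exact this.mono (by omega)
        · refine ⟨fun c s h => ge_eval E h η, ?_, fun x1 x2 x3 c1 c2 c3 _ e2 => ?_⟩
          · rw [Finsupp.add_apply, Finsupp.single_eq_same, Finsupp.single_apply]
            split_ifs
            · show 1 - N P' ≤ 1 + 1 - N P'
              omega
            · show 1 - N P' ≤ 0 + 1 - N P'
              omega
          · rw [evL_apply, map_mul, map_mul]
            have := ((ge_eval E c1 η).mul (e2 rfl)).mul (ge_eval E c3 η)
            exact this.mono (by omega)) Q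
    obtain ⟨t, ht0, ht⟩ := Q.surj
    choose lam hlam using fun j => exists_one (hη j)
    by_cases hne : P = Q
    · obtain ⟨j, hj⟩ := hPQ hne
      subst hne
      obtain ⟨lam0, h0, h01⟩ := exists_sep (hξ j) hj
      obtain ⟨a', ha'⟩ := hsplit j
      obtain ⟨s, hs, -, hs0⟩ := key (sB E P (t ^ (-N P)) j lam0 lam a')
        (sB_mh E _ j lam0 lam ha') (sB_cg E (ge_zpow ht _) j lam0 lam a')
      refine ⟨s, hs, ?_, fun hcon => ?_⟩
      · have h4 := hs0 _ (Or.inl ⟨rfl, rfl⟩)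
        rw [evL_apply, map_sub, sB_eval, h0, map_zero, zero_mul, mul_zero, sub_zero] at h4
        exact h4
      · have h4 := hs0 _ (Or.inr ⟨rfl, rfl⟩)
        rw [evL_apply, map_sub, sB_eval, h01, map_one, one_mul, eval_prodPow_one E η lam hlam,
          mul_one] at h4
        have h5 := hcon.sub h4
        rw [sub_sub_cancel] at h5
        exact not_ge_zpow ht0 ht (by omega) h5
    · obtain ⟨s, hs, hs1, hs0⟩ := key (sA E Q (t ^ (-N Q)) lam a) (sA_mh E _ lam a)
        (sA_cg E (ge_zpow ht _) lam a)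
      refine ⟨s, hs, hs1 P hne _ (Or.inl ⟨rfl, rfl⟩), fun hcon => ?_⟩
      have h4 := hs0 _ (Or.inr ⟨rfl, rfl⟩)
      rw [evL_apply, map_sub, sA_eval E _ η lam hlam] at h4
      have h5 := hcon.sub h4
      rw [sub_sub_cancel] at h5
      exact not_ge_zpow ht0 ht (by omega) h5
  · -- transversal tangent vectors
    choose lam hlam using fun j => exists_one (hξ j)
    have ht0 : t ≠ 0 := by
      intro h0
      rw [h0, P.ord_zero] at ht
      exact zero_ne_one ht
    have htge : Ge P 1 t := Or.inr ht.ge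
    obtain ⟨z, hz⟩ : ∃ z : Vr r → K, z = kc ξ + t • kc η := ⟨_, rfl⟩
    have hzge : ∀ x, Ge P 0 (z x) := by
      intro x
      rw [hz]
      have h4 := htge.mul (ge_kc (P := P) η x)
      exact (ge_kc ξ x).add (h4.mono (by norm_num))
    have hzsub : ∀ x, Ge P 1 (z x - kc ξ x) := by
      intro x
      rw [hz, Pi.add_apply, add_sub_cancel_left]
      have h4 := htge.mul (ge_kc (P := P) η x)
      rwa [add_zero] at h4
    have hev : ∀ s, eval (ptM E P ξ + t • ptM E P η) s = eval z (locM E P s) := by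
      intro s
      rw [eval_locM, hz, iv_add, iv_smul, ← ptM_eq, ← ptM_eq]
    have hcong : ∀ c s, CG P c (locM E P s) →
        Ge P (c + 1) (eval z (locM E P s) - eval (ptM E P ξ) s) := by
      intro c s h
      rw [eval_ptM]
      exact h.eval_sub hzge (ge_kc ξ) hzsub
    have hone : ∀ x, CG P 0 (locM E P x) → Ge P 1 (eval (ptM E P ξ) x) →
        Ge P 1 (eval z (locM E P x)) := by
      intro x h h'
      have h4 := (hcong 0 x h).add (h'.mono (by norm_num))
      rwa [sub_add_cancel, zero_add] at h4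
    obtain ⟨s, hs, -, hs0⟩ := core P P ξ ξ hξ hξ
      (fun P' => {p | P' = P ∧ p = (evL (ptM E P ξ + t • ptM E P η), 2 - N P)})
      (Finsupp.single P 2)
      (fun P' => by
        rw [Finsupp.single_apply]
        split_ifs <;> norm_num)
      (by
        rintro P' p ⟨rfl, rfl⟩
        refine ⟨fun c s h => ?_, ?_, fun x1 x2 x3 c1 c2 c3 e1 e2 => ?_⟩
        · rw [evL_apply, hev]
          exact h.eval hzge
        · rw [Finsupp.single_eq_same]
        · rw [evL_apply, hev, locM_mul, locM_mul, map_mul, map_mul]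
          have := ((hone x1 c1 (e1 rfl)).mul (hone x2 c2 (e2 rfl))).mul (c3.eval hzge)
          exact this.mono (by omega))
      P (sA E P (t ^ (1 - N P)) lam a) (sA_mh E _ lam a)
      ((sA_cg E (ge_zpow ht _) lam a).mono (by omega))
    have h4 := hs0 _ ⟨rfl, rfl⟩
    rw [evL_apply, hev] at h4
    have hu : Ge P 1 (eval z (locM E P (∏ j, cfM E P j (lam j) ^ a j)) - 1) := by
      have h5 := (cg_prodPow (P := P) E lam a).eval_sub hzge (ge_kc ξ) hzsub
      rwa [eval_prodPow_one E ξ lam hlam, zero_add] at h5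
    have hs0z : eval z (locM E P (sA E P (t ^ (1 - N P)) lam a)) =
        t ^ (1 - N P) * eval z (locM E P (∏ j, cfM E P j (lam j) ^ a j)) := by
      rw [sA, locM_mul, locM_C, map_mul, eval_C]
    have hlsub : locM E P (s - sA E P (t ^ (1 - N P)) lam a) =
        locM E P s - locM E P (sA E P (t ^ (1 - N P)) lam a) := map_sub _ _ _
    rw [hlsub, map_sub, hs0z] at h4
    refine ⟨s, hs, ?_, fun hcon => ?_⟩
    · have h5 : Ge P (1 - N P) (t ^ (1 - N P) *
          eval z (locM E P (∏ j, cfM E P j (lam j) ^ a j))) := by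
        have := (ge_zpow ht (1 - N P)).mul ((cg_prodPow (P := P) E lam a).eval hzge)
        rwa [add_zero] at this
      have h6 := (h4.mono (by omega : 1 - N P ≤ 2 - N P)).add h5
      rw [sub_add_cancel] at h6
      have h7 := hcong (-N P) s (hs.2 P)
      have h8 := h6.sub (h7.mono (by omega : 1 - N P ≤ -N P + 1))
      rwa [sub_sub_cancel] at h8
    · rw [hev] at hcon
      have h5 := hcon.sub h4
      rw [sub_sub_cancel] at h5
      exact not_ge ht0 ht hu (by omega) h5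
  · -- vertical tangent vectors
    choose lam hlam using fun j => exists_one (hξ j)
    obtain ⟨t, ht0, ht⟩ := P.surj
    obtain ⟨j, hj⟩ := hη
    obtain ⟨lam0, h0, h01⟩ := exists_sep (hξ j) hj
    obtain ⟨a', ha'⟩ := hsplit j
    obtain ⟨s, hs, -, hs0⟩ := core P P ξ ξ hξ hξ
      (fun P' => {p | P' = P ∧ (p = (evL (ptM E P ξ), 1 - N P) ∨
        p = (dvM (ptM E P η) (ptM E P ξ), 1 - N P))})
      (Finsupp.single P 1)
      (fun P' => by
        rw [Finsupp.single_apply]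
        split_ifs <;> norm_num)
      (by
        rintro P' p ⟨rfl, rfl | rfl⟩
        · refine ⟨fun c s h => ge_eval E h ξ, ?_, fun x1 x2 x3 c1 c2 c3 e1 _ => ?_⟩
          · rw [Finsupp.single_eq_same]
          · rw [evL_apply, map_mul, map_mul]
            have := ((e1 rfl).mul (ge_eval E c2 ξ)).mul (ge_eval E c3 ξ)
            exact this.mono (by omega)
        · refine ⟨fun c s h => ge_dv E h ξ η, ?_, fun x1 x2 x3 c1 c2 c3 e1 e2 => ?_⟩
          · rw [Finsupp.single_eq_same]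
          · show Ge P' (1 - N P' + N P') (dvM (ptM E P' η) (ptM E P' ξ) (x1 * x2 * x3))
            rw [dvM_mul, dvM_mul, map_mul]
            have f1 := e1 rfl
            have f2 := e2 rfl
            have g1 := ge_eval E c1 ξ
            have g2 := ge_eval E c2 ξ
            have g3 := ge_eval E c3 ξ
            have d1 := ge_dv E c1 ξ η
            have d2 := ge_dv E c2 ξ η
            have d3 := ge_dv E c3 ξ η
            have k1 := ((d1.mul f2).mul g3).mono (by omega : 1 - N P' + N P' ≤ 0 + 1 + 0)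
            have k2 := ((f1.mul d2).mul g3).mono (by omega : 1 - N P' + N P' ≤ 1 + 0 + 0)
            have k3 := ((f1.mul g2).mul d3).mono (by omega : 1 - N P' + N P' ≤ 1 + 0 + 0)
            rw [add_mul]
            exact (k1.add k2).add k3)
      P (sB E P (t ^ (-N P)) j lam0 lam a') (sB_mh E _ j lam0 lam ha')
      (sB_cg E (ge_zpow ht _) j lam0 lam a')
    refine ⟨s, hs, ?_, fun hcon => ?_⟩
    · have h4 := hs0 _ ⟨rfl, Or.inl rfl⟩
      rw [evL_apply, map_sub, sB_eval, h0, map_zero, zero_mul, mul_zero, sub_zero] at h4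
      exact h4
    · have h4 := hs0 _ ⟨rfl, Or.inr rfl⟩
      rw [← dvM_apply] at hcon
      have h4' : Ge P (1 - N P) (dvM (ptM E P η) (ptM E P ξ)
          (s - sB E P (t ^ (-N P)) j lam0 lam a')) := h4
      rw [map_sub, sB_dv E _ j lam0 lam a' ξ η h0 h01 hlam] at h4'
      have h5 := hcon.sub h4'
      rw [sub_sub_cancel] at h5
      exact not_ge_zpow ht0 ht (by omega) h5

end Pool.Agent.Helper63.PP
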